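import Pool.Agent.Helper43.SP.WinBad
import Pool.Agent.Helper23.SP.St.Stubs2

set_option autoImplicit false

/-!
# SP2-C1: collisions in light cells in windows of a process
-/

namespace Pool.Agent.Helper28.SP

open Finset
open Pool.Agent.Helper23.SP
open Pool.Agent.Helper23.SP.St (card_put g_put_self)
open Pool.Agent.Helper23.SP.St2 (read_light)
open Pool.Agent.Helper43.SP (keyOf keyOf_inj Sof nxof nxof_ok rd_eq pre_put)

variable {El V : Type} [Fintype El] [DecidableEq El] {k b U : ℕ} [NeZero b]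

open Classical in
/-- SP2-C1 (from SP2-A1 and SP-B, as in SP-C). -/
theorem light_bad [Fintype V] [DecidableEq V] (P : Proc El k b U V) {s : ℕ} (hP : P.OK s)
    (r : Fin k) (t0 : ℕ) (v : V) (τ A t x0 : ℕ) (h : 5 * A * (t * U + A * b) ≤ x0 * b * U) :
    (univ.filter (fun ω : Om El k b U =>
      (P.rev ω t0 v τ r.val).card ≤ A ∧
      x0 + ((lightSet (fun e => pre r.val (ω.1 e)) t (P.rev ω t0 v τ r.val)).image
        (g r ω)).card ≤
        (lightSet (fun e => pre r.val (ω.1 e)) t (P.rev ω t0 v τ r.val)).card)).card *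
      2 ^ x0 ≤ Fintype.card (Om El k b U) := by
  apply card_put r
  intro ω
  have h1 := read_light (El := El) (G := Fin k → Fin b) (V := V) (C := Fin k → Fin b) (b := b)
    (U := U) (fun e => pre r.val (ω.1 e)) (keyOf r ω) (keyOf_inj r ω) (Sof P r t0 ω)
    (nxof P r t0 ω) (nxof_ok P hP r t0 ω) v τ A t x0 h
  refine le_trans (Nat.mul_le_mul_right _ (card_le_card ?_)) h1
  intro ξ hξ
  have hξ := (mem_filter.1 hξ).2
  refine (@mem_filter _ _ (_) _ _).2 ⟨mem_univ _, ?_⟩
  have h2 := (mem_filter.1 hξ).2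
  simp only [pre_put] at h2
  rw [rd_eq]
  have himg : (lightSet (fun e => pre r.val (ω.1 e)) t
      (P.rev (put r ω ξ) t0 v τ r.val)).image (g r (put r ω ξ))
      = (lightSet (fun e => pre r.val (ω.1 e)) t
      (P.rev (put r ω ξ) t0 v τ r.val)).image (fun e => ξ.2 (keyOf r ω e (ξ.1 e))) := by
    apply image_congr
    intro e _
    exact g_put_self r ω ξ e
  rw [himg] at h2
  exact h2

end Pool.Agent.Helper28.SP
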