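import Pool.Agent.Helper60.SP.Cont
import Pool.Agent.Helper60.SP.Long
import Pool.Agent.Helper60.SP.Own
import Pool.Agent.Helper60.SP.Basic

/-!
# SP-WORDB: a cut which is reached from the root gives a long word
-/

set_option autoImplicit false

namespace Pool.Agent.Helper28.SPW

open Pool.Agent.Helper60.SP

variable {n : ℕ}

/-- The point of a node. -/
def pt (v : ℕ × ℕ) : ℤ × ℤ := ((v.1 : ℤ), (v.2 : ℤ))

theorem toNd_pt (v : ℕ × ℕ) : toNd (pt v) = v := by
  unfold toNd pt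
  simp

theorem pt_inj {u v : ℕ × ℕ} (h : pt u = pt v) : u = v := by
  have h1 := congrArg toNd h
  rwa [toNd_pt, toNd_pt] at h1

theorem pt_root : pt (0, 0) = (0, 0) := rfl

theorem pt_ch_true (v : ℕ × ℕ) : pt (ch v true) = pt v + vec 0 := by
  simp [pt, ch, vec]

theorem pt_ch_false (v : ℕ × ℕ) : pt (ch v false) = pt v + vec 1 := by
  simp [pt, ch, vec]

theorem reach_nd {blk : ℕ × ℕ → Bool → Prop} {v : ℕ × ℕ} (h : Reach n blk v) :
    v.1 + v.2 ≤ n := by
  induction h with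
  | root => simp
  | step v s _ hlt _ _ =>
    rw [ch_sum]
    omega

open Classical in
/-- The points of the nodes which are reached. -/
noncomputable def reg (n : ℕ) (blk : ℕ × ℕ → Bool → Prop) : Finset (ℤ × ℤ) :=
  ((Finset.range (n + 1) ×ˢ Finset.range (n + 1)).filter (fun v => Reach n blk v)).image pt

theorem mem_reg {blk : ℕ × ℕ → Bool → Prop} {x : ℤ × ℤ} :
    x ∈ reg n blk ↔ ∃ v, Reach n blk v ∧ pt v = x := by
  classical
  unfold reg
  rw [Finset.mem_image]
  constructor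
  · rintro ⟨v, hv, h⟩
    rw [Finset.mem_filter] at hv
    exact ⟨v, hv.2, h⟩
  · rintro ⟨v, hv, h⟩
    have h1 := reach_nd hv
    refine ⟨v, ?_, h⟩
    rw [Finset.mem_filter, Finset.mem_product, Finset.mem_range, Finset.mem_range]
    exact ⟨⟨by omega, by omega⟩, hv⟩

theorem pt_mem_reg {blk : ℕ × ℕ → Bool → Prop} {v : ℕ × ℕ} :
    pt v ∈ reg n blk ↔ Reach n blk v := by
  rw [mem_reg]
  constructor
  · rintro ⟨u, hu, h⟩
    rw [← pt_inj h]
    exact hu
  · exact fun h => ⟨v, h, rfl⟩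

theorem card_reg (n : ℕ) (blk : ℕ × ℕ → Bool → Prop) : (reg n blk).card ≤ (n + 1) ^ 2 := by
  classical
  unfold reg
  refine Finset.card_image_le.trans ((Finset.card_filter_le _ _).trans ?_)
  rw [Finset.card_product, Finset.card_range, sq]

theorem reg_pos {blk : ℕ × ℕ → Bool → Prop} {x : ℤ × ℤ} (h : x ∈ reg n blk) :
    0 ≤ x.1 ∧ 0 ≤ x.2 ∧ x.1 + x.2 ≤ n := by
  rw [mem_reg] at h
  obtain ⟨v, hv, rfl⟩ := h
  have h1 := reach_nd hv
  refine ⟨?_, ?_, ?_⟩
  · exact Int.natCast_nonneg _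
  · exact Int.natCast_nonneg _
  · show (v.1 : ℤ) + (v.2 : ℤ) ≤ n
    exact_mod_cast h1

theorem chain_of_reach {blk : ℕ × ℕ → Bool → Prop} {v : ℕ × ℕ} (h : Reach n blk v) :
    Chain (reg n blk) (pt v) := by
  induction h with
  | root => exact Chain.root
  | step v s hv hlt hb ih =>
    have h1 : Reach n blk (ch v s) := Reach.step v s hv hlt hb
    have h2 := pt_mem_reg.2 h1
    cases s with
    | true =>
      rw [pt_ch_true] at h2 ⊢
      exact Chain.right _ ih h2
    | false =>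
      rw [pt_ch_false] at h2 ⊢
      exact Chain.up _ ih h2

/-- A slot of a reached node whose lower neighbour is not reached is blocked. -/
theorem blk_of_not_reach {blk : ℕ × ℕ → Bool → Prop} (hcut : Cut n blk) {v : ℕ × ℕ} {s : Bool}
    (hv : Reach n blk v) (h : ¬ Reach n blk (ch v s)) : blk v s := by
  by_contra hb
  rcases Nat.lt_or_eq_of_le (reach_nd hv) with h1 | h1
  · exact h (Reach.step v s hv h1 hb)
  · exact hb (hcut v hv h1 s)

theorem mem_outs {w : ℕ → Fin 3} {m : ℕ} {p : (ℕ × ℕ) × Bool} : p ∈ outs w m ↔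
    ∃ i < m, ((walk w i).2 = 0 ∨ (walk w i).2 = 1) ∧
      (toNd (walk w i).1, decide ((walk w i).2 = 0)) = p := by
  unfold outs
  rw [Finset.mem_image]
  constructor
  · rintro ⟨i, hi, h⟩
    rw [Finset.mem_filter, Finset.mem_range] at hi
    exact ⟨i, hi.1, hi.2, h⟩
  · rintro ⟨i, hi, h1, h⟩
    refine ⟨i, ?_, h⟩
    rw [Finset.mem_filter, Finset.mem_range]
    exact ⟨hi, h1⟩

section walks

variable {blk : ℕ × ℕ → Bool → Prop} {w : ℕ → Fin 3} {m : ℕ}

theorem outs_reach (hcut : Cut n blk)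
    (hb : ∀ i, (walk w i).1 ∈ reg n blk ∧ (walk w i).1 + vec (walk w i).2 ∉ reg n blk)
    {p : (ℕ × ℕ) × Bool} (hp : p ∈ outs w m) : Reach n blk p.1 ∧ blk p.1 p.2 := by
  rw [mem_outs] at hp
  obtain ⟨i, -, hd, rfl⟩ := hp
  obtain ⟨h1, h2⟩ := hb i
  rw [mem_reg] at h1
  obtain ⟨v, hv, hx⟩ := h1
  rw [← hx, toNd_pt]
  rw [← hx] at h2
  refine ⟨hv, ?_⟩
  rcases hd with hd | hd
  · rw [hd, ← pt_ch_true, pt_mem_reg] at h2
    have h3 : decide ((walk w i).2 = 0) = true := by
      rw [hd]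
      rfl
    show blk v (decide ((walk w i).2 = 0))
    rw [h3]
    exact blk_of_not_reach hcut hv h2
  · rw [hd, ← pt_ch_false, pt_mem_reg] at h2
    have h3 : decide ((walk w i).2 = 0) = false := by
      rw [hd]
      rfl
    show blk v (decide ((walk w i).2 = 0))
    rw [h3]
    exact blk_of_not_reach hcut hv h2

theorem owners_reach (hcut : Cut n blk)
    (hb : ∀ i, (walk w i).1 ∈ reg n blk ∧ (walk w i).1 + vec (walk w i).2 ∉ reg n blk)
    {v : ℕ × ℕ} (hv : v ∈ owners w m) : IsNd n v ∧ v ≠ (0, 0) := by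
  unfold owners at hv
  rw [Finset.mem_erase, Finset.mem_image] at hv
  obtain ⟨h0, p, hp, rfl⟩ := hv
  exact ⟨reach_nd (outs_reach hcut hb hp).1, h0⟩

theorem walk_len (hinj : ∀ i < m, ∀ j < m, walk w i = walk w j → i = j)
    (hb : ∀ i, (walk w i).1 ∈ reg n blk ∧ (walk w i).1 + vec (walk w i).2 ∉ reg n blk) :
    m ≤ 4 * (n + 1) ^ 2 := by
  classical
  have h1 : (Finset.range m).card ≤ (reg n blk ×ˢ (Finset.univ : Finset (Fin 4))).card := by
    refine Finset.card_le_card_of_injOn (walk w) ?_ ?_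
    · intro i _
      rw [Finset.mem_coe, Finset.mem_product]
      exact ⟨(hb i).1, Finset.mem_univ _⟩
    · intro i hi j hj h
      rw [Finset.mem_coe, Finset.mem_range] at hi hj
      exact hinj i hi j hj h
  rw [Finset.card_range, Finset.card_product, Finset.card_univ, Fintype.card_fin] at h1
  have h2 := card_reg n blk
  calc m ≤ (reg n blk).card * 4 := h1
    _ ≤ (n + 1) ^ 2 * 4 := Nat.mul_le_mul_right 4 h2
    _ = 4 * (n + 1) ^ 2 := Nat.mul_comm _ _

theorem only_root (h : ∀ s, blk (0, 0) s) {v : ℕ × ℕ} (hv : Reach n blk v) : v = (0, 0) := by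
  induction hv with
  | root => rfl
  | step v s _ _ hb ih =>
    rw [ih] at hb
    exact absurd (h s) hb

end walks

theorem word_close (hn : 1 ≤ n) (blk : ℕ × ℕ → Bool → Prop) (hcut : Cut n blk)
    (h0 : ∃ v, Reach n blk v ∧ v.1 + v.2 = n) : ∃ (w : ℕ → Fin 3) (m : ℕ), 2 * n + 4 ≤ m ∧
      m ≤ 4 * (n + 1) ^ 2 ∧ m ≤ 4 * (owners w m).card + 2 ∧
      (∀ v ∈ owners w m, IsNd n v ∧ v ≠ (0, 0)) ∧ ∀ p ∈ outs w m, blk p.1 p.2 := by
  obtain ⟨v, hv, hvn⟩ := h0
  have hroot : ((0, 0) : ℤ × ℤ) ∈ reg n blk := pt_mem_reg.2 (Reach.root (n := n) (blk := blk))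
  obtain ⟨w, m, hm, hc, hinj, hb⟩ := contour (reg n blk) hroot
    (fun x hx => ⟨(reg_pos hx).1, (reg_pos hx).2.1⟩)
  have hlong : 2 * n + 4 ≤ m :=
    contour_long (reg n blk) hroot n (fun x hx => reg_pos hx) w m hm hc hinj hb (pt v)
      (chain_of_reach hv) (by
        show (v.1 : ℤ) + (v.2 : ℤ) = n
        exact_mod_cast hvn)
  have hown := owners_card w m hc hinj
    (fun i _ => ⟨(reg_pos (hb i).1).1, (reg_pos (hb i).1).2.1⟩)
  have hone : ((outs w m).filter (fun p => p.1 = (0, 0))).card ≤ 1 := by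
    rw [Finset.card_le_one]
    intro a ha b hb'
    rw [Finset.mem_filter] at ha hb'
    by_contra hab
    have h1 := (outs_reach hcut hb ha.1).2
    have h2 := (outs_reach hcut hb hb'.1).2
    rw [ha.2] at h1
    rw [hb'.2] at h2
    have h3 : a.2 ≠ b.2 := fun h => hab (Prod.ext (ha.2.trans hb'.2.symm) h)
    have h4 : ∀ s, blk (0, 0) s := by
      intro s
      by_cases hs : s = a.2
      · rw [hs]
        exact h1
      · have h5 : s = b.2 := by
          cases hs' : s <;> cases ha' : a.2 <;> cases hb'' : b.2 <;> simp_all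
        rw [h5]
        exact h2
    have h5 := only_root h4 hv
    rw [h5] at hvn
    simp at hvn
    omega
  refine ⟨w, m, hlong, walk_len hinj hb, by omega, fun u hu => owners_reach hcut hb hu,
    fun p hp => (outs_reach hcut hb hp).2⟩

end Pool.Agent.Helper28.SPW
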